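import Pool.Agent.Y354.DC3.Stm3
import Pool.Agent.Y614.DC3.J2

/-!
# DC4-UP: upper level
-/

set_option autoImplicit false
set_option linter.all false

open Finset
open scoped Classical

namespace Pool.Agent.Y710.DC4

open Pool.Agent.Y354.DC3
open Pool.Agent.Y614.DC3 (I_and I_nonneg card_I G Y_eq E_mono E_sum)

lemma E_comb {V : Type} [Fintype V] (μ : V → ℝ) (N : V → V → V → Prop) (k : ℕ)
    (F F' : (Fin k → V) → ℝ) :
    4 / 3 * (P μ N k - E μ N k F) + 1 / 3 * E μ N k F' =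
      E μ N k (fun x => 4 / 3 * (1 - F x) + 1 / 3 * F' x) := by
  unfold P E
  rw [← Finset.sum_sub_distrib, Finset.mul_sum, Finset.mul_sum, ← Finset.sum_add_distrib]
  refine Finset.sum_congr rfl fun x _ => ?_
  ring

theorem s_up : S_AL → S_EX → S_CR → S_PT → S_UP := by
  intro _ hEX _ hPT V _ μ N hN hμ k
  obtain ⟨F, hF⟩ : ∃ F : (Fin (k + 1) → V) → V → ℝ, F = fun y v => ∑ u, μ u *
      ((2 - I (Al N y u)) * (S N y v u : ℝ) - 5 / 6 * (bb N y v u : ℝ)) := ⟨_, rfl⟩
  have h0 : E μ N (k + 1) (fun y => ∑ v, μ v * I (Al N y v) *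
      ∑ u, μ u * ((2 - I (Al N y u)) * (S N y v u : ℝ) - 5 / 6 * (bb N y v u : ℝ))) =
      E μ N (k + 1) (fun y => ∑ v, μ v * I (Al N y v) * F y v) := by
    rw [hF]
  have h1 : ∀ i : Fin (k + 2), E μ N (k + 2) (fun x => F (rm x i) (x i)) =
      E μ N (k + 1) (fun y => ∑ v, μ v * I (Al N y v) * F y v) := fun i =>
    hEX V μ N hN (k + 1) i F
  have h2 : ((k : ℝ) + 2) * E μ N (k + 1) (fun y => ∑ v, μ v * I (Al N y v) * F y v) =
      E μ N (k + 2) (fun x => ∑ i : Fin (k + 2), F (rm x i) (x i)) := by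
    rw [← E_sum μ N (k + 2) univ (fun (i : Fin (k + 2)) x => F (rm x i) (x i)),
      Finset.sum_congr rfl fun i _ => h1 i, Finset.sum_const, Finset.card_univ, Fintype.card_fin,
      nsmul_eq_mul]
    push_cast
    ring
  have h3 : P μ N (k + 3) = E μ N (k + 2) (fun x => ∑ u, μ u * I (Al N x u)) := by
    have h := hEX V μ N hN (k + 2) 0 (fun _ _ => 1)
    unfold P
    rw [h]
    congr 1
    funext x
    exact Finset.sum_congr rfl fun u _ => mul_one _
  have g1 : ∀ i : Fin (k + 2), E μ N (k + 2) (fun x => G μ N (rm x i) (x i)) = Y μ N (k + 1) := by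
    intro i
    rw [Y_eq μ N (k + 1)]
    exact hEX V μ N hN (k + 1) i (fun y w => G μ N y w)
  have g2 : ((k : ℝ) + 2) * Y μ N (k + 1) =
      E μ N (k + 2) (fun x => ∑ i : Fin (k + 2), G μ N (rm x i) (x i)) := by
    rw [← E_sum μ N (k + 2) univ (fun (i : Fin (k + 2)) x => G μ N (rm x i) (x i)),
      Finset.sum_congr rfl fun i _ => g1 i, Finset.sum_const, Finset.card_univ, Fintype.card_fin,
      nsmul_eq_mul]
    push_cast
    ring
  rw [h0, h2, h3, mul_assoc (1 / 3 : ℝ), g2, E_comb]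
  refine E_mono μ N hμ.1 _ _ _ fun x => ?_
  have h4 : ∑ i : Fin (k + 2), G μ N (rm x i) (x i) =
      ∑ u, μ u * ((univ.filter (fun i : Fin (k + 2) =>
        Al N (rm x i) u ∧ Ad N (rm x i) (x i) u)).card : ℝ) := by
    unfold G
    rw [Finset.sum_comm]
    refine Finset.sum_congr rfl fun u _ => ?_
    rw [card_I, Finset.mul_sum]
  have h5 : ∑ i : Fin (k + 2), F (rm x i) (x i) = ∑ u, μ u * ∑ i : Fin (k + 2),
      ((2 - I (Al N (rm x i) u)) * (S N (rm x i) (x i) u : ℝ) -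
        5 / 6 * (bb N (rm x i) (x i) u : ℝ)) := by
    rw [hF]
    simp only []
    rw [Finset.sum_comm]
    refine Finset.sum_congr rfl fun u _ => ?_
    rw [Finset.mul_sum]
  have h6 : (1 : ℝ) - ∑ u, μ u * I (Al N x u) = ∑ u, μ u * (1 - I (Al N x u)) := by
    simp only [mul_sub, mul_one, Finset.sum_sub_distrib]
    rw [hμ.2]
  rw [h4, h5, h6, Finset.mul_sum, Finset.mul_sum, ← Finset.sum_add_distrib]
  refine Finset.sum_le_sum fun u _ => ?_
  have h7 := mul_le_mul_of_nonneg_left (hPT V N hN k x u) (hμ.1 u)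
  refine le_trans (le_of_eq ?_) h7
  ring

end Pool.Agent.Y710.DC4
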